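import Pool.Agent.Q182.LkCor

/-!
# Groups acting on trees with edge stabilizers in normal subgroups of the vertex stabilizers

`C` is any class of groups which contains the metabelian groups and has the closure properties
`ClosedA C`: the usual closure properties `ClosedE C` and closure under acylindrical actions on
trees. All of this is known for the class of the groups which satisfy the K-theoretic Farrell–Jones
conjecture with coefficients and finite wreath products (solvable groups: Wegner, acylindrical
actions: Knopf).

Let `G` act without inversions on a tree with vertex stabilizers `G_v` in `C`, and let `ρ` be a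
homomorphism from `G` to a group in `C`, with kernel `R` (one may take `ρ` trivial, `R = G`). We write
`R_v`, `R_e` for the intersections of `R` with the stabilizers of a vertex and of an edge. We show that
`G` is in `C` in each of the following cases.

* (1) There are normal subgroups `L_v ≤ K_v` of `G_v` with `K_v ≤ R`, chosen invariantly, such that
  `G_v ⧸ K_v` and `G_v ⧸ L_v` are in `C`, and for each edge `e` at `v` the group `R_e` is contained in
  `K_v`, the commutators of `R_e` and `K_v` are in `L_v`, and `L_v` meets `R_e` trivially.
* (2) For each `v` the subgroup `B_v` generated by the groups `R_e`, `e` an edge at `v`, is commutative,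
  and the group of automorphisms of `B_v` which are given by conjugation with elements of `G_v` is in
  `C`.
* (3) There are normal subgroups `K_v` of `G_v` with `K_v ≤ R`, chosen invariantly, which contain `R_e`
  for the edges `e` at `v`, such that `G_v ⧸ K_v` is in `C` and `[K_v, K_v]` meets the groups `R_e`
  trivially.

Outline of the proof. For an invariant family of normal subgroups `K_v` of the vertex stabilizers which
is compatible with the edges there is a homomorphism `θ` from `G` to a multiple HNN extension of the
free product of groups `G_v ⧸ K_v` so that the kernel of `θ` meets each `G_v` in `K_v`; it is obtained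
from the embedding of `G` in a multiple HNN extension of a free product of vertex stabilizers. The
target of `θ` is a directed colimit of iterated HNN extensions on whose associated subgroups the
homomorphism induced by `ρ` is injective, and hence it is in `C`. For the family `L_v` we only use that
the normal subgroup `M` generated by the `L_v` meets `G_v` in `L_v`. The group `G ⧸ M` acts on the tree
`T ⧸ M` with the vertex stabilizers `G_v ⧸ L_v`, and with the homomorphism `θ` for the family `K_v` our
theorem `MP_f7db47_al.RelativeCentralEdges` applies to this action. Finally `M` meets the edge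
stabilizers of `T` trivially.
-/

set_option autoImplicit false

namespace Pool.Agent.Results.MP_6374fb_al.LocalKernels

open Q182.Cyl (ClosedA)

/-- Let `C` be a class of groups with the closure properties `ClosedA C` which contains all
metabelian groups. Let `G` be a group acting without inversions on a tree with vertex stabilizers in
`C`, and let `ρ` be a homomorphism from `G` to a group `D` in `C`.

(1) Let `K` and `L` be families of subgroups with `L v ≤ K v`, where `K v` is contained in the
stabilizer of `v` and in the kernel of `ρ`, which are invariant under conjugation by `G`. Suppose that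
for every edge `{v, w}` the elements of the kernel of `ρ` which fix `v` and `w` are in `K v`, their
commutators with the elements of `K v` are in `L v`, and the only element of `L v` which fixes `w` is
the identity. Suppose that the quotients of the stabilizer of `v` by `K v` and by `L v` are in `C`.
Then `G` is in `C`.

(2) Suppose that for every vertex `v` the elements of the kernel of `ρ` which fix an edge at `v`
commute with each other, and that the quotient of the stabilizer of `v` by the centralizer of the set of
these elements is in `C`. Then `G` is in `C`.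

(3) Let `K` be as in (1). Suppose that for every edge `{v, w}` the elements of the kernel of `ρ` which
fix `v` and `w` are in `K v`, and the only element of the commutator subgroup of `K v` which fixes `w` is
the identity. Suppose that the quotient of the stabilizer of `v` by `K v` is in `C`. Then `G` is in
`C`. -/
theorem result (C : ∀ (G : Type) [Group G], Prop) (hC : ClosedA C)
    (hmet : ∀ (G : Type) [Group G], derivedSeries G 2 = ⊥ → C G)
    (G D V : Type) [Group G] [Group D] [MulAction G V] (T : SimpleGraph V) (hT : T.IsTree)
    (hadj : ∀ (g : G) (v w : V), T.Adj v w → T.Adj (g • v) (g • w))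
    (hinv : ∀ (g : G) (v w : V), T.Adj v w → ¬ (g • v = w ∧ g • w = v))
    (hst : ∀ v : V, C (MulAction.stabilizer G v)) (ρ : G →* D) (hD : C D) :
    (∀ K L : V → Subgroup G,
      (∀ v, ∀ k ∈ K v, k • v = v ∧ ρ k = 1) → (∀ v, L v ≤ K v) →
      (∀ (g : G) (v : V), ∀ k ∈ K v, g * k * g⁻¹ ∈ K (g • v)) →
      (∀ (g : G) (v : V), ∀ k ∈ L v, g * k * g⁻¹ ∈ L (g • v)) →
      (∀ v w, T.Adj v w → ∀ s : G, ρ s = 1 → s • v = v → s • w = w → s ∈ K v) →
      (∀ v w, T.Adj v w → ∀ s ∈ K v, s • w = w → ∀ k ∈ K v, s * k * s⁻¹ * k⁻¹ ∈ L v) →
      (∀ v w, T.Adj v w → ∀ s ∈ L v, s • w = w → s = 1) →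
      (∀ v, ∃ (Q : Type) (_ : Group Q) (φ : MulAction.stabilizer G v →* Q), C Q ∧
        ∀ s, φ s = 1 ↔ (s : G) ∈ K v) →
      (∀ v, ∃ (Q : Type) (_ : Group Q) (φ : MulAction.stabilizer G v →* Q), C Q ∧
        ∀ s, φ s = 1 ↔ (s : G) ∈ L v) → C G) ∧
    ((∀ v w w' : V, T.Adj v w → T.Adj v w' → ∀ s s' : G, ρ s = 1 → ρ s' = 1 → s • v = v →
        s • w = w → s' • v = v → s' • w' = w' → s * s' = s' * s) →
      (∀ v, ∃ (Q : Type) (_ : Group Q) (φ : MulAction.stabilizer G v →* Q), C Q ∧
        ∀ g, φ g = 1 ↔ ∀ w, T.Adj v w → ∀ s : G, ρ s = 1 → s • v = v → s • w = w →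
          (g : G) * s = s * g) → C G) ∧
    (∀ K : V → Subgroup G,
      (∀ v, ∀ k ∈ K v, k • v = v ∧ ρ k = 1) →
      (∀ (g : G) (v : V), ∀ k ∈ K v, g * k * g⁻¹ ∈ K (g • v)) →
      (∀ v w, T.Adj v w → ∀ s : G, ρ s = 1 → s • v = v → s • w = w → s ∈ K v) →
      (∀ v w, T.Adj v w → ∀ s ∈ ⁅K v, K v⁆, s • w = w → s = 1) →
      (∀ v, ∃ (Q : Type) (_ : Group Q) (φ : MulAction.stabilizer G v →* Q), C Q ∧
        ∀ s, φ s = 1 ↔ (s : G) ∈ K v) → C G) := by
  refine ⟨?_, ?_, ?_⟩
  · intro K L h1 h2 h3 h4 h5 h6 h7 h8 h9
    exact Q182.Lk.main hC hmet ⟨hT, hadj, hinv⟩ ρ hD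
      ⟨fun v k hk => (h1 v k hk).1, h2, h3, h4, fun v k hk => (h1 v k hk).2, h5, h6, h7⟩ h8 h9 hst
  · intro h1 h2
    exact Q182.Lk.main_comm hC hmet ⟨hT, hadj, hinv⟩ ρ hD hst h1 h2
  · intro K h1 h2 h3 h4 h5
    exact Q182.Lk.main_abel hC hmet ⟨hT, hadj, hinv⟩ ρ hD hst (fun v k hk => (h1 v k hk).1) h2
      (fun v k hk => (h1 v k hk).2) h3 h5 h4

end Pool.Agent.Results.MP_6374fb_al.LocalKernels
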