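import Pool.Agent.Q30.FJ.Lin2M

/-!
# Linear groups of degree two over polynomial rings and free algebras
-/

set_option autoImplicit false

namespace Pool.Agent.Results.MP_6374fb_al.NoncommutativeDegreeTwo

open Q30.FJ

theorem result : ∀ C : ∀ (G : Type) [Group G], Prop, ClosedF C →
    (∀ (A M : Type) [Ring A] [Monoid M] [NoZeroDivisors (MonoidAlgebra A M)]
      (l : M →* Multiplicative ℕ), (∀ m, l m = 1 → m = 1) → C (GL (Fin 2) A) →
      C ↥(Subgroup.closure {g : GL (Fin 2) (MonoidAlgebra A M) |
        (∃ h : GL (Fin 2) A, ∀ i j, g.1 i j = MonoidAlgebra.single 1 (h.1 i j)) ∨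
        ∃ (i j : Fin 2) (r : MonoidAlgebra A M), i ≠ j ∧ g.1 = 1 + Matrix.single i j r})) ∧
    (∀ (D : Type) [DivisionRing D], C (GL (Fin 2) D) → C (GL (Fin 2) (Polynomial D))) := by
  intro C hF
  constructor
  · intro A M _ _ _ l hl hA
    have : NoZeroDivisors A := ⟨fun {a b} hab => by
      have h1 : (MonoidAlgebra.single 1 a : MonoidAlgebra A M) * MonoidAlgebra.single 1 b = 0 := by
        rw [MonoidAlgebra.single_mul_single, hab, MonoidAlgebra.single_zero]
      have h2 : ∀ a : A, (MonoidAlgebra.single 1 a : MonoidAlgebra A M) = 0 → a = 0 := by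
        intro a h
        have h3 := congrArg (fun x : MonoidAlgebra A M => x.coeff 1) h
        have h4 : (MonoidAlgebra.single 1 a : MonoidAlgebra A M).coeff 1 = 0 := h3
        rw [MonoidAlgebra.coeff_single] at h4
        rwa [Finsupp.single_eq_same] at h4
      rcases mul_eq_zero.1 h1 with h | h
      · exact Or.inl (h2 _ h)
      · exact Or.inr (h2 _ h)⟩
    exact (monDR hl).Elem_mem hF hA
  · intro D _ hD
    have h1 := (polDR (D := D)).Elem_mem hF hD
    rw [Elem_top] at h1
    refine hF.base.base.of_injective _ _ (MonoidHom.mk' (fun g => (⟨g, Subgroup.mem_top g⟩ :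
      (⊤ : Subgroup (GL (Fin 2) (Polynomial D))))) fun _ _ => rfl) ?_ h1
    intro g h hgh
    exact congrArg Subtype.val hgh

end Pool.Agent.Results.MP_6374fb_al.NoncommutativeDegreeTwo
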