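import Pool.Agent.Q27.SCT.Aff

/-!
# Groups of permutations which are piecewise translations with scattered pieces

`C` is any class of groups with the closure properties `ClosedE C`, all of which are known for the
class of the groups that satisfy the `K`-theoretic Farrell–Jones conjecture with coefficients in
additive categories and finite wreath products.

Let the group `Γ` act on the set `S`. A subset of `S` is scattered, `Scat Γ A`, if it is in a
`Γ`-invariant superatomic algebra of subsets of `S`. The scattered sets form an algebra, since the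
algebra generated by two superatomic algebras is superatomic.

Outline of the proof. A group which acts faithfully on `S` and preserves a superatomic algebra `B` of
subsets acts on the space of ultrafilters of `B`, which is compact and scattered. The theorem on
scattered spaces (`Pool.Agent.Q27.SCT.Main`) reduces to the groups of germs at the ultrafilters, and
these are subquotients of `Γ`, if the elements are piecewise in `Γ` with pieces in `B`. The general
case is a directed union.
-/

set_option autoImplicit false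

namespace Pool.Agent.Results.MP_6374fb_al.PiecewiseIsometries

open Pool.Agent.Y110.FJ (ClosedE)
open Q27.SCT (Scat SemiGen gen)

/-- Let `C` be a class of groups with the closure properties `ClosedE C`.

1. Let `Γ` act on a set `S` such that the quotient of `Δ` by `N` is in `C` for all subgroups `Δ` of `Γ`
and all normal subgroups `N` of `Δ` with the property that every finite subset of `N` has a fixed
point in `S` (if the action is free this means that `Γ` is in `C`). Let the group `P` act faithfully
on `S` such that for every `g` in `P` there are finitely many scattered sets that cover `S` on each of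
which `g` agrees with an element of `Γ`. Then `P` is in `C`.

2. The condition on subquotients holds if `Γ` is virtually abelian.

3. Let `Γ` in `C` act on `S`, let `P` act on `S` and let `c` be a cocycle on `P × S` with values in `Γ`
with `g s = (c g s) s` which is trivial only for `g = 1` and such that every `c g` is constant on the
members of a finite cover of `S` by scattered sets. Then `P` is in `C`.

4. The scattered sets form an algebra which contains the finite sets. If all differences of `A` and
its translates are in one `Γ`-invariant superatomic algebra, `A` is scattered. Scattered sets can be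
pulled back along maps which are equivariant for a map to `Γ`.

5. Let `Λ` be a finite group of automorphisms of the group `ℤ^ι` and let `P` act faithfully on the set
`ℤ^ι` such that every `g` in `P` agrees with affine maps with linear part in `Λ` on the members of a
finite cover of `ℤ^ι` by semilinear sets (Boolean combinations of half-spaces `a ≤ ℓ s` and residue
classes `ℓ s ≡ r` modulo `m`). Then `P` is in `C`. -/
theorem result (C : ∀ (G : Type) [Group G], Prop) (hC : ClosedE C) :
    (∀ (Γ S P : Type) [Group Γ] [MulAction Γ S] [Group P] [MulAction P S],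
      (∀ (Δ : Subgroup Γ) (N : Subgroup Δ) [N.Normal],
        (∀ t : Set Δ, t.Finite → t ⊆ N → ∃ s : S, ∀ δ ∈ t, (δ : Γ) • s = s) → C (Δ ⧸ N)) →
      (∀ g : P, (∀ s : S, g • s = s) → g = 1) →
      (∀ g : P, ∃ T : Set (Γ × Set S), T.Finite ∧
        (∀ p ∈ T, Scat Γ p.2 ∧ ∀ s ∈ p.2, g • s = p.1 • s) ∧ ∀ s : S, ∃ p ∈ T, s ∈ p.2) → C P) ∧
    (∀ (Γ : Type) [Group Γ] (T : Subgroup Γ), T.FiniteIndex → (∀ a ∈ T, ∀ b ∈ T, a * b = b * a) →
      ∀ (Δ : Subgroup Γ) (N : Subgroup Δ) [N.Normal], C (Δ ⧸ N)) ∧
    (∀ (Γ S P : Type) [Group Γ] [MulAction Γ S] [Group P] [MulAction P S] (c : P → S → Γ), C Γ →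
      (∀ g h s, c (g * h) s = c g (h • s) * c h s) → (∀ g s, g • s = c g s • s) →
      (∀ g, (∀ s, c g s = 1) → g = 1) →
      (∀ g : P, ∃ T : Set (Γ × Set S), T.Finite ∧
        (∀ p ∈ T, Scat Γ p.2 ∧ ∀ s ∈ p.2, c g s = p.1) ∧ ∀ s : S, ∃ p ∈ T, s ∈ p.2) → C P) ∧
    ((∀ (Γ S : Type) [Group Γ] [MulAction Γ S] (A A' : Set S), Scat Γ A → Scat Γ A' →
        Scat Γ Aᶜ ∧ Scat Γ (A ∩ A')) ∧
      (∀ (Γ S : Type) [Group Γ] [MulAction Γ S] (A : Set S), A.Finite → Scat Γ A) ∧
      (∀ (Γ S : Type) [Group Γ] [MulAction Γ S] (B : Set (Set S)), Q27.SCT.ISA Γ B →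
        ∀ A : Set S, (∀ γ : Γ, symmDiff A {s | γ • s ∈ A} ∈ B) → Scat Γ A) ∧
      (∀ (Γ Γ' S S' : Type) [Group Γ] [MulAction Γ S] [Group Γ'] [MulAction Γ' S'] (A : Set S)
        (σ : Γ' → Γ) (π : S' → S), (∀ γ s, π (γ • s) = σ γ • π s) → Scat Γ A →
        Scat Γ' (π ⁻¹' A))) ∧
    (∀ (ι : Type) (Λ : Subgroup ((ι → ℤ) ≃ₗ[ℤ] (ι → ℤ))), Finite Λ → ∀ (P : Type) [Group P]
      [MulAction P (ι → ℤ)], (∀ g : P, (∀ s : ι → ℤ, g • s = s) → g = 1) →
      (∀ g : P, ∃ T : Set (((ι → ℤ) ≃ₗ[ℤ] (ι → ℤ)) × (ι → ℤ) × Set (ι → ℤ)), T.Finite ∧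
        (∀ p ∈ T, p.1 ∈ Λ ∧ p.2.2 ∈ gen (SemiGen ι) ∧ ∀ s ∈ p.2.2, g • s = p.1 s + p.2.1) ∧
        ∀ s, ∃ p ∈ T, s ∈ p.2.2) → C P) := by
  refine ⟨?_, ?_, ?_, ⟨?_, ?_, ?_, ?_⟩, ?_⟩
  · intro Γ S P _ _ _ _ h1 h2 h3
    exact Q27.SCT.pieces (Γ := Γ) (S := S) hC h1 h2 h3
  · intro Γ _ T hT hab Δ N _
    exact Q27.SCT.vab_mem hC.base T hT hab Δ N
  · intro Γ S P _ _ _ _ c hΓ hc hact h1 hp
    exact Q27.SCT.labels hC Γ S P hΓ c hc hact h1 hp
  · intro Γ S _ _ A A' hA hA'
    exact ⟨hA.compl, hA.inter hA'⟩
  · intro Γ S _ _ A hA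
    exact Q27.SCT.scat_of_finite hA
  · intro Γ S _ _ B hB A hA
    exact Q27.SCT.scat_step hB hA
  · intro Γ Γ' S S' _ _ _ _ A σ π hπ hA
    exact hA.comap σ π hπ
  · intro ι Λ hΛ P _ _ hf hp
    exact Q27.SCT.aff_main hC Λ P hf hp

end Pool.Agent.Results.MP_6374fb_al.PiecewiseIsometries
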