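import Pool.Agent.Q27.SPC.Main

/-!
# Farrell–Jones groups: automorphisms of special cube complexes

`ClosedE C` lists closure properties of the class of groups which satisfy the K-theoretic
Farrell–Jones conjecture with additive category coefficients and finite wreath products (subgroups,
finite products, free products, overgroups of finite index, directed colimits, the extension
criterion). `D = C` is allowed.

Let `X` be the 1-skeleton of a CAT(0) cube complex `𝒳`, i.e. a median graph. There is no condition on
the dimension, which can be infinite, and `𝒳` need not be locally finite. The parallelism `Par X N` of
oriented edges is generated by the opposite sides of squares and by the action of `N`; its classes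
are the oriented hyperplanes of `N \ 𝒳`. If `N` acts freely then `Special X N` says that `N \ 𝒳` is
special in the sense of Haglund and Wise: the hyperplanes are two-sided, do not cross or directly
osculate themselves, and two hyperplanes which cross do not osculate.

Outline of the proof. Let `Γ` be the crossing graph of the set `L` of the oriented hyperplanes of
`N \ 𝒳`, and `x₀` a vertex. The product of the elements `x_a x_b⁻¹`, `b` the opposite of `a`, over the
oriented edges of a path from `x₀` to `g x₀` is an element `f(g)` of the right-angled Artin group
`A_Γ`, and `g ↦ (f(g), gN)` is a homomorphism from `G` to `A_Γ ⋊ G/N`. To see that `f` determines the
endpoint of a path we extend the partial translations of the set of vertices along the edges of a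
class `a` to permutations of the product of the set of vertices with the set of functions
`L → {0, 1}`, so that the permutations of classes which cross commute. Hence the homomorphism is
injective. Finally graph-wreath products are known to be in `D`.
-/

set_option autoImplicit false

namespace Pool.Agent.Results.MP_6374fb_al.SpecialCubeComplexes

open Q27.SPC (Med Special)
open Pool.Agent.Y110.FJ (ClosedE)
open Q30.FJ (ClosedOver)

/-- Let `C` be a class of groups with the closure properties `ClosedE C`, and let the class `D` be
closed under subgroups and satisfy the extension principle over `C` (`D = C` is possible). Let `G` act
on a connected graph `X` in which any three vertices have a median (for example the 1-skeleton of a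
CAT(0) cube complex of any dimension), and let `N` be a normal subgroup which acts faithfully and such
that the quotient of the cube complex by `N` is special. If `G ⧸ N` is in `D`, then `G` is in `D`. -/
theorem result (C D : ∀ (G : Type) [Group G], Prop) (hC : ClosedE C) (hD : ClosedOver C D)
    (G V : Type) [Group G] [MulAction G V] (X : SimpleGraph V) (hX : Med X)
    (hadj : ∀ (g : G) (v w : V), X.Adj v w → X.Adj (g • v) (g • w))
    (N : Subgroup G) [N.Normal] (hS : Special X N)
    (hN : ∀ n ∈ N, (∀ x : V, n • x = x) → n = 1) (hQ : D (G ⧸ N)) : D G :=
  Q27.SPC.main hC hD hX hadj hS hN hQ

end Pool.Agent.Results.MP_6374fb_al.SpecialCubeComplexes
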